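import Mathlib

/-! Definitions for the strong chromatic index of truncated cubic graphs (MP_40dd6f_co). -/

set_option autoImplicit false

namespace TruncSC

universe u

/-! ## 1. The graph-theoretic notions of the problem -/

/-- The truncation of `G`: vertices are the darts of `G`; two darts are adjacent when they leave
the same vertex, or when they are the two darts of one edge. -/
def truncation {V : Type u} (G : SimpleGraph V) : SimpleGraph G.Dart where
  Adj d e := d ≠ e ∧ (d.fst = e.fst ∨ e = d.symm)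
  symm := ⟨by
    rintro d e ⟨h, h' | h'⟩
    · exact ⟨h.symm, Or.inl h'.symm⟩
    · exact ⟨h.symm, Or.inr (by rw [h', SimpleGraph.Dart.symm_symm])⟩⟩
  loopless := ⟨fun _ h => h.1 rfl⟩

/-- Two distinct edges conflict when they share an endpoint or some edge shares an endpoint with
each of them. -/
def EdgeConflict {W : Type u} (H : SimpleGraph W) (e f : Sym2 W) : Prop :=
  e ≠ f ∧ ((∃ x, x ∈ e ∧ x ∈ f) ∨
    ∃ g ∈ H.edgeSet, (∃ x, x ∈ e ∧ x ∈ g) ∧ ∃ y, y ∈ g ∧ y ∈ f)

/-- `H` has a strong edge colouring with `k` colours. -/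
def StrongEdgeColorable {W : Type u} (H : SimpleGraph W) (k : ℕ) : Prop :=
  ∃ c : Sym2 W → Fin k, ∀ e ∈ H.edgeSet, ∀ f ∈ H.edgeSet, EdgeConflict H e f → c e ≠ c f

/-- The strong chromatic index. -/
noncomputable def strongChromaticIndex {W : Type u} (H : SimpleGraph W) : ℕ :=
  sInf {k | StrongEdgeColorable H k}

/-- Every vertex has exactly three neighbours. -/
def Cubic {V : Type u} (G : SimpleGraph V) : Prop := ∀ v, (G.neighborSet v).ncard = 3

/-! ## 2. Colours and state colourings of a graph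

The six colours are `Bool × ZMod 3`.  For an ordered pair `(u,v)` of adjacent vertices, `a u v` is
the colour of the link edge `uv` (seen from `u`), and `t u v` is the colour of the edge of the
triangle at `u` that is opposite to the link `uv`. -/

abbrev Col := Bool × ZMod 3

section graph
variable {V : Type u} (H : SimpleGraph V) (a t : V → V → Col)

/-- At every vertex of degree three the six colours are distinct. -/
def GStates : Prop := ∀ u v w, H.Adj u v → H.Adj u w →
  a u v ≠ t u w ∧ (v ≠ w → a u v ≠ a u w ∧ t u v ≠ t u w)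

/-- The condition along the link `uv`. -/
def GEdge (u v : V) : Prop := a u v = a v u ∧
  ∀ w w', H.Adj u w → w ≠ v → H.Adj v w' → w' ≠ u → t u w ≠ t v w'

/-- The link `uv` may be replaced by `u - (digon) - v`. -/
def GFlag (u v : V) : Prop := a u v ≠ a v u ∧
  ∃ c d : Col, c ≠ d ∧ c ≠ a u v ∧ c ≠ a v u ∧ d ≠ a u v ∧ d ≠ a v u ∧
    (∀ w, H.Adj u w → w ≠ v → c ≠ t u w ∧ d ≠ t u w) ∧
    (∀ w, H.Adj v w → w ≠ u → c ≠ t v w ∧ d ≠ t v w)

/-- The link `uv` may be subdivided by a new vertex `x` with state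
`(a u v, a v u, b | t1, t2, t3)`. -/
def GX (u v : V) : Prop := ∃ b t1 t2 t3 : Col,
  [a u v, a v u, b, t1, t2, t3].Nodup ∧
    (∀ w, H.Adj u w → w ≠ v → t2 ≠ t u w ∧ t3 ≠ t u w) ∧
    (∀ w, H.Adj v w → w ≠ u → t1 ≠ t v w ∧ t3 ≠ t v w)

/-- 3-edge-connectivity. -/
def EC3 : Prop := ∀ A : Set V, A.Nonempty → A ≠ Set.univ →
  3 ≤ {p : V × V | p.1 ∈ A ∧ p.2 ∉ A ∧ H.Adj p.1 p.2}.ncard

end graph

/-! ## 3. Dart-level pieces (for the reduction to 3-edge-connected graphs)

Fixed finite types `V` (vertices), `D` (darts), `vert : D → V` with fibres of size 3.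
A graph is given by an involution `ι` on the darts; fixed points of `ι` are semi-edges. -/

section pieces
variable {V D : Type u} (vert : D → V)

def Deg3 : Prop := ∀ v, {d | vert d = v}.ncard = 3

variable (ι : D → D) (S : Set V)

def InvOn : Prop := ∀ d, vert d ∈ S → vert (ι d) ∈ S ∧ ι (ι d) = d

/-- no loops, no parallel edges -/
def Simp : Prop := ∀ d, vert d ∈ S → ι d ≠ d → vert (ι d) ≠ vert d ∧
  ∀ e, vert e = vert d → ι e ≠ e → vert (ι e) = vert (ι d) → e = d

def dcut (A : Set V) : Set D := {d | vert d ∈ A ∧ vert (ι d) ∉ A}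

def ECn (n : ℕ) : Prop := ∀ A : Set V, A ⊆ S → A.Nonempty → A ≠ S → n ≤ (dcut vert ι A).ncard

variable (a t : D → Col)

def DStates : Prop := ∀ d e, vert d ∈ S → vert e = vert d →
  a d ≠ t e ∧ (d ≠ e → a d ≠ a e ∧ t d ≠ t e)

/-- the condition along an edge consisting of the darts `d`, `e` -/
def DEdge (d e : D) : Prop := a d = a e ∧
  ∀ d' e', vert d' = vert d → d' ≠ d → vert e' = vert e → e' ≠ e → t d' ≠ t e'

def DFlag (d e : D) : Prop := a d ≠ a e ∧
  ∃ c c' : Col, c ≠ c' ∧ c ≠ a d ∧ c ≠ a e ∧ c' ≠ a d ∧ c' ≠ a e ∧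
    (∀ d', vert d' = vert d → d' ≠ d → c ≠ t d' ∧ c' ≠ t d') ∧
    (∀ e', vert e' = vert e → e' ≠ e → c ≠ t e' ∧ c' ≠ t e')

def DX (d e : D) : Prop := ∃ b t1 t2 t3 : Col,
  [a d, a e, b, t1, t2, t3].Nodup ∧
    (∀ d', vert d' = vert d → d' ≠ d → t2 ≠ t d' ∧ t3 ≠ t d') ∧
    (∀ e', vert e' = vert e → e' ≠ e → t1 ≠ t e' ∧ t3 ≠ t e')

/-- `(a,t)` is a colouring of the piece `(S, ι)`; no condition on semi-edges. -/
def IsCol : Prop := DStates vert S a t ∧ ∀ d, vert d ∈ S → ι d ≠ d → DEdge vert a t d (ι d)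

end pieces

section pieces2
variable {V D : Type u} [DecidableEq D] (vert : D → V) (ι : D → D) (S : Set V)

/-- join the semi-edges `p`, `q` to one edge -/
def joinI (p q : D) : D → D := fun d => if d = p then q else if d = q then p else ι d

/-- cut the edge formed by the darts `p`, `q` into two semi-edges -/
def cutI (p q : D) : D → D := fun d => if d = p then p else if d = q then q else ι d

/-- a simple piece with exactly the two semi-edges `p`, `q` whose closure is bridgeless -/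
structure TwoPiece (p q : D) : Prop where
  inv : InvOn vert ι S
  simp : Simp vert ι S
  hp : vert p ∈ S
  hq : vert q ∈ S
  ne : p ≠ q
  fixp : ι p = p
  fixq : ι q = q
  nofix : ∀ d, vert d ∈ S → d ≠ p → d ≠ q → ι d ≠ d
  ec : ECn vert (joinI ι p q) S 2

def HasD0 (p q : D) : Prop := ∃ a t : D → Col, IsCol vert ι S a t ∧ DEdge vert a t p q
def HasFlag (p q : D) : Prop := ∃ a t : D → Col, IsCol vert ι S a t ∧ DFlag vert a t p q
def HasX (p q : D) : Prop := ∃ a t : D → Col, IsCol vert ι S a t ∧ DX vert a t p q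

end pieces2

/-! ## 4. Instances: cycles of the 2-factor with the matching on their positions -/

structure Inst (C : Type u) where
  L : C → ℕ
  four : ∀ c, 4 ≤ L c
  mate : (Σ c : C, ZMod (L c)) → (Σ c : C, ZMod (L c))
  sgn : (Σ c : C, ZMod (L c)) → Bool
  mate_mate : ∀ p, mate (mate p) = p
  sgn_mate : ∀ p, sgn (mate p) = sgn p
  uniq : ∀ p q, mate p = p → mate q = q → p = q
  noadj : ∀ c (i : ZMod (L c)), mate ⟨c, i⟩ ≠ ⟨c, i + 1⟩

section inst
variable {C : Type u}

abbrev Inst.Pos (I : Inst C) : Type u := Σ c : C, ZMod (I.L c)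

instance (I : Inst C) (c : C) : NeZero (I.L c) := ⟨by have := I.four c; omega⟩

def Inst.nx (I : Inst C) (p : I.Pos) : I.Pos := ⟨p.1, p.2 + 1⟩
def Inst.pv (I : Inst C) (p : I.Pos) : I.Pos := ⟨p.1, p.2 - 1⟩

/-- `p` is an end of a matching edge joining two different cycles -/
def Inst.NL (I : Inst C) (p : I.Pos) : Prop := (I.mate p).1 ≠ p.1

/-- 4-edge-connectivity of the quotient multigraph -/
def Inst.Conn4 (I : Inst C) : Prop := ∀ U : Set C, U.Nonempty → U ≠ Set.univ →
  4 ≤ {p : I.Pos | p.1 ∈ U ∧ (I.mate p).1 ∉ U}.ncard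

/-- An instance colouring. `x p` is the colour of the cycle edge from `p` to `nx p`, `z p` the
colour of the matching edge at `p`, `tL p, tR p, tM p` the triangle colours opposite to the left
(previous) cycle edge, the right (next) cycle edge and the matching edge. -/
structure Inst.IsColoring (I : Inst C) (x z tL tR tM : I.Pos → Col) : Prop where
  st : ∀ p, [x (I.pv p), x p, z p, tL p, tR p, tM p].Nodup
  cyc : ∀ p, tL p ≠ tR (I.nx p) ∧ tL p ≠ tM (I.nx p) ∧ tM p ≠ tR (I.nx p) ∧ tM p ≠ tM (I.nx p)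
  pos : ∀ p, I.mate p ≠ p → I.sgn p = true → z p = z (I.mate p) ∧
    tL p ≠ tL (I.mate p) ∧ tL p ≠ tR (I.mate p) ∧ tR p ≠ tL (I.mate p) ∧ tR p ≠ tR (I.mate p)
  neg : ∀ p, I.mate p ≠ p → I.sgn p = false → z p ≠ z (I.mate p) ∧
    ∃ c d : Col, c ≠ d ∧ c ∉ [z p, z (I.mate p), tL p, tR p, tL (I.mate p), tR (I.mate p)] ∧
      d ∉ [z p, z (I.mate p), tL p, tR p, tL (I.mate p), tR (I.mate p)]

def Inst.Colorable (I : Inst C) : Prop := ∃ x z tL tR tM : I.Pos → Col, I.IsColoring x z tL tR tM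

end inst

/-! ## 5. Types -/

inductive Kind | P | S | H
  deriving DecidableEq

/-- closing condition for a cycle of length `L`; `us i` says that position `i` is usable
(its matching edge does not come back to the same cycle with sign `+`) -/
def GoodL (L : ℕ) (τ : ZMod L → Bool) (kind : ZMod L → Kind) (mc : ZMod L → Bool)
    (us : ZMod L → Prop) : Prop :=
  4 ≤ {i | kind i = Kind.H}.ncard ∨
  ({i | kind i = Kind.H}.ncard = 0 ∧ (∃ i, kind i = Kind.S) ∧ L % 3 ≠ 1) ∨
  ({i | kind i = Kind.H}.ncard = 2 ∧ ∀ X : Bool,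
    (∃ i, kind i = Kind.S ∧ τ i = X) ∨
    ({i | τ i = X}.ncard + {i | kind i = Kind.H ∧ mc i = X}.ncard) % 3 ≠ 2 ∨
    (∃ i, kind i = Kind.P ∧ τ i = (!X) ∧ us i))

/-- consistency of types on a cycle -/
structure ConsL (L : ℕ) (τ : ZMod L → Bool) (kind : ZMod L → Kind) (mc : ZMod L → Bool) :
    Prop where
  hP : ∀ i, kind i = Kind.P → τ (i - 1) = τ i ∧ mc i = !(τ i)
  hS : ∀ i, kind i = Kind.S → τ (i - 1) = τ i ∧ mc i = τ i
  hH : ∀ i, kind i = Kind.H → τ (i - 1) ≠ τ i
  one : ∀ i j, kind i = Kind.S → kind j = Kind.S → i = j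

/-- `us` for position `i` of cycle `c` -/
def Inst.Us {C : Type u} (I : Inst C) (c : C) (i : ZMod (I.L c)) : Prop :=
  I.sgn ⟨c, i⟩ = false ∨ I.mate ⟨c, i⟩ = ⟨c, i⟩ ∨ (I.mate ⟨c, i⟩).1 ≠ c

/-- Types data for an instance. -/
structure Inst.TD {C : Type u} (I : Inst C) (τ : I.Pos → Bool) (kind : I.Pos → Kind)
    (mc : I.Pos → Bool) : Prop where
  cons : ∀ c, ConsL (I.L c) (fun i => τ ⟨c, i⟩) (fun i => kind ⟨c, i⟩) (fun i => mc ⟨c, i⟩)
  good : ∀ c, GoodL (I.L c) (fun i => τ ⟨c, i⟩) (fun i => kind ⟨c, i⟩) (fun i => mc ⟨c, i⟩)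
    (I.Us c)
  hM : ∀ p, I.mate p ≠ p → (kind p = Kind.P ↔ kind (I.mate p) ≠ Kind.P)
  hpos : ∀ p, I.mate p ≠ p → I.sgn p = true → mc p = mc (I.mate p)
  hneg : ∀ p, I.mate p ≠ p → I.sgn p = false → mc p ≠ mc (I.mate p)

/-! ## 6. Colours on a single cycle, one colour class `X` at a time -/

/-- class of `tL`, `tR` -/
def cLR (k : Kind) (τ m : Bool) : Bool := match k with
  | Kind.P => !τ
  | Kind.S => !τ
  | Kind.H => !m

/-- class of `tM` -/
def cTM (k : Kind) (τ m : Bool) : Bool := match k with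
  | Kind.P => τ
  | Kind.S => !τ
  | Kind.H => m

/-- `z` extends to a solution of all constraints between values of class `X` on the cycle. -/
def SolX (L : ℕ) (τ : ZMod L → Bool) (kind : ZMod L → Kind) (mc : ZMod L → Bool) (X : Bool)
    (z : ZMod L → ZMod 3) : Prop :=
  ∃ x tL tR tM : ZMod L → ZMod 3, ∀ i,
    (([(τ (i - 1), x (i - 1)), (τ i, x i), (mc i, z i), (cLR (kind i) (τ i) (mc i), tL i),
      (cLR (kind i) (τ i) (mc i), tR i), (cTM (kind i) (τ i) (mc i), tM i)] : List Col).filter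
        (fun s => s.1 == X)).Nodup ∧
    (∀ s ∈ ([(cLR (kind i) (τ i) (mc i), tL i), (cTM (kind i) (τ i) (mc i), tM i)] : List Col),
      s.1 = X →
      s ∉ ([(cLR (kind (i + 1)) (τ (i + 1)) (mc (i + 1)), tR (i + 1)),
        (cTM (kind (i + 1)) (τ (i + 1)) (mc (i + 1)), tM (i + 1))] : List Col))

/-- the cycle can be closed in class `X` with outputs not depending on the inputs -/
def Indep (L : ℕ) (τ : ZMod L → Bool) (kind : ZMod L → Kind) (mc : ZMod L → Bool) (X : Bool) :
    Prop :=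
  ∃ zo : ZMod L → ZMod 3, ∀ z : ZMod L → ZMod 3,
    (∀ i, mc i = X → kind i ≠ Kind.P → z i = zo i) → SolX L τ kind mc X z

/-- the cycle can be closed in class `X` using the input at `i0` -/
def Dep (L : ℕ) (τ : ZMod L → Bool) (kind : ZMod L → Kind) (mc : ZMod L → Bool) (X : Bool)
    (i0 : ZMod L) : Prop :=
  ∃ ε : ZMod L → ZMod 3, (∀ i, ε i = 1 ∨ ε i = -1) ∧
    (∀ i j, kind i = Kind.H → kind j = Kind.H → ε i = ε j → i = j) ∧
    ∀ (x0 δ : ZMod 3), (δ = 1 ∨ δ = -1) → ∀ z : ZMod L → ZMod 3, z i0 = x0 →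
      (∀ i, kind i = Kind.H → mc i = X → z i = x0 + ε i * δ) → SolX L τ kind mc X z

end TruncSC
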