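import Pool.Agent.TruncSC.Defs

/-! Statements of the modules (see /team-store/MP_40dd6f_co_PROOF.md). -/

set_option autoImplicit false

namespace TruncSC

universe u

/-! ### Part A: from state colourings to the strong chromatic index -/

/-- T1 -/
def Stmt_T1 : Prop := ∀ (V : Type u) [Fintype V] [Nonempty V] (G : SimpleGraph V), Cubic G →
  (∃ a t : V → V → Col, GStates G a t ∧ ∀ u v, G.Adj u v → GEdge G a t u v) →
  strongChromaticIndex (truncation G) = 6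

/-! ### Part B: reduction to 3-edge-connected graphs -/

/-- T2 (rung) -/
def Stmt_T2 : Prop := ∀ (V D : Type u) [Fintype V] [Fintype D] [DecidableEq D] (vert : D → V)
  (ι : D → D) (S : Set V) (p q ρ : D), Deg3 vert → TwoPiece vert ι S p q →
  vert ρ = vert p → ρ ≠ p → vert (ι ρ) = vert q →
  ∃ (S' : Set V) (ι' : D → D) (p' q' : D), S'.ncard < S.ncard ∧ TwoPiece vert ι' S' p' q' ∧
    (HasFlag vert ι' S' p' q' → HasD0 vert ι S p q) ∧
    (HasD0 vert ι' S' p' q' → HasFlag vert ι S p q ∧ HasX vert ι S p q)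

/-- T3 (series) -/
def Stmt_T3 : Prop := ∀ (V D : Type u) [Fintype V] [Fintype D] [DecidableEq D] (vert : D → V)
  (ι : D → D) (S : Set V) (p q : D), Deg3 vert → TwoPiece vert ι S p q →
  ∀ A : Set V, A ⊆ S → vert p ∈ A → vert q ∉ A → (dcut vert (joinI ι p q) A).ncard = 2 →
  ∃ (S1 : Set V) (ι1 : D → D) (p1 q1 : D) (S2 : Set V) (ι2 : D → D) (p2 q2 : D),
    S1.ncard < S.ncard ∧ S2.ncard < S.ncard ∧
    TwoPiece vert ι1 S1 p1 q1 ∧ TwoPiece vert ι2 S2 p2 q2 ∧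
    (HasD0 vert ι2 S2 p2 q2 →
      (HasD0 vert ι1 S1 p1 q1 → HasD0 vert ι S p q) ∧
      (HasFlag vert ι1 S1 p1 q1 → HasFlag vert ι S p q) ∧
      (HasX vert ι1 S1 p1 q1 → HasX vert ι S p q))

/-- T4 (substitution): a part `A` attached by two edges at two non-adjacent vertices -/
def Stmt_T4 : Prop := ∀ (V D : Type u) [Fintype V] [Fintype D] [DecidableEq D] (vert : D → V)
  (ι : D → D) (S : Set V) (p q : D), Deg3 vert → TwoPiece vert ι S p q →
  ∀ (A : Set V) (f g : D), A ⊆ S → vert p ∉ A → vert q ∉ A → f ≠ g → dcut vert ι A = {f, g} →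
  vert (ι f) ≠ vert (ι g) → (∀ d, vert d = vert (ι f) → vert (ι d) ≠ vert (ι g)) →
  ∃ (S1 : Set V) (ι1 : D → D) (p1 q1 : D) (S2 : Set V) (ι2 : D → D),
    S1.ncard < S.ncard ∧ S2.ncard < S.ncard ∧
    TwoPiece vert ι1 S1 p1 q1 ∧ TwoPiece vert ι2 S2 p q ∧
    (HasD0 vert ι1 S1 p1 q1 →
      (HasD0 vert ι2 S2 p q → HasD0 vert ι S p q) ∧
      (HasFlag vert ι2 S2 p q → HasFlag vert ι S p q) ∧
      (HasX vert ι2 S2 p q → HasX vert ι S p q))

/-- T5 (case distinction): the terminals are not adjacent and the closure is not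
3-edge-connected; then T3 or T4 applies -/
def Stmt_T5 : Prop := ∀ (V D : Type u) [Fintype V] [Fintype D] [DecidableEq D] (vert : D → V)
  (ι : D → D) (S : Set V) (p q : D), Deg3 vert → TwoPiece vert ι S p q →
  (∀ d, vert d = vert p → vert (ι d) ≠ vert q) → ¬ ECn vert (joinI ι p q) S 3 →
  (∃ A : Set V, A ⊆ S ∧ vert p ∈ A ∧ vert q ∉ A ∧ (dcut vert (joinI ι p q) A).ncard = 2) ∨
  (∃ (A : Set V) (f g : D), A ⊆ S ∧ vert p ∉ A ∧ vert q ∉ A ∧ f ≠ g ∧ dcut vert ι A = {f, g} ∧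
    vert (ι f) ≠ vert (ι g) ∧ (∀ d, vert d = vert (ι f) → vert (ι d) ≠ vert (ι g)))

/-- the base theorem for pieces: proved from `Stmt_BaseG` in T8 -/
def Stmt_BaseD : Prop := ∀ (V D : Type u) [Fintype V] [Fintype D] [DecidableEq D] (vert : D → V)
  (ι : D → D) (S : Set V) (p q : D), Deg3 vert → TwoPiece vert ι S p q →
  (∀ d, vert d = vert p → vert (ι d) ≠ vert q) → ECn vert (joinI ι p q) S 3 →
  HasD0 vert ι S p q ∧ HasFlag vert ι S p q ∧ HasX vert ι S p q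

/-- every simple two-terminal piece has colourings of all three types -/
def Stmt_AllPieces : Prop := ∀ (V D : Type u) [Fintype V] [Fintype D] [DecidableEq D]
  (vert : D → V) (ι : D → D) (S : Set V) (p q : D), Deg3 vert → TwoPiece vert ι S p q →
  HasD0 vert ι S p q ∧ HasFlag vert ι S p q ∧ HasX vert ι S p q

/-- T6: strong induction on `S.ncard`, uses T2-T5 and the base theorem -/
def Stmt_T6 : Prop := Stmt_BaseD.{u} → Stmt_AllPieces.{u}

/-- T7: arbitrary simple pieces (bridges, any number of semi-edges) -/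
def Stmt_T7 : Prop := Stmt_AllPieces.{u} → ∀ (V D : Type u) [Fintype V] [Fintype D]
  [DecidableEq D] (vert : D → V) (ι : D → D) (S : Set V), Deg3 vert → InvOn vert ι S →
  Simp vert ι S → ∃ a t : D → Col, IsCol vert ι S a t

/-- the base theorem for 3-edge-connected cubic graphs -/
def Stmt_BaseG : Prop := ∀ (V : Type u) [Fintype V] (H : SimpleGraph V), Cubic H → EC3 H →
  ∀ u v, H.Adj u v →
  (∃ a t : V → V → Col, GStates H a t ∧ ∀ x y, H.Adj x y → GEdge H a t x y) ∧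
  (∃ a t : V → V → Col, GStates H a t ∧
    (∀ x y, H.Adj x y → s(x, y) ≠ s(u, v) → GEdge H a t x y) ∧ GFlag H a t u v) ∧
  (∃ a t : V → V → Col, GStates H a t ∧
    (∀ x y, H.Adj x y → s(x, y) ≠ s(u, v) → GEdge H a t x y) ∧ GX H a t u v)

/-- T8 -/
def Stmt_T8 : Prop := Stmt_BaseG.{u} → Stmt_BaseD.{u}

/-- T8b: the dart-level theorem for `S = univ`, `ι = Dart.symm` gives the graph-level one -/
def Stmt_T8b : Prop := (∀ (V D : Type u) [Fintype V] [Fintype D]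
  [DecidableEq D] (vert : D → V) (ι : D → D) (S : Set V), Deg3 vert → InvOn vert ι S →
  Simp vert ι S → ∃ a t : D → Col, IsCol vert ι S a t) →
  ∀ (V : Type u) [Fintype V] (G : SimpleGraph V), Cubic G →
    ∃ a t : V → V → Col, GStates G a t ∧ ∀ u v, G.Adj u v → GEdge G a t u v

/-! ### Part C: from 3-edge-connected graphs to instances -/

/-- T9a: every edge of a 3-edge-connected cubic graph is in a perfect matching (Tutte) -/
def Stmt_T9a : Prop := ∀ (V : Type u) [Fintype V] (H : SimpleGraph V), Cubic H → EC3 H →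
  ∀ u v, H.Adj u v → ∃ M : V → V, (∀ x, H.Adj x (M x)) ∧ (∀ x, M (M x) = x) ∧ M u = v

/-- T9: ... even in one that meets every 3-edge-cut exactly once -/
def Stmt_T9 : Prop := ∀ (V : Type u) [Fintype V] (H : SimpleGraph V), Cubic H → EC3 H →
  ∀ u v, H.Adj u v → ∃ M : V → V, (∀ x, H.Adj x (M x)) ∧ (∀ x, M (M x) = x) ∧ M u = v ∧
    ∀ A : Set V, A.Nonempty → A ≠ Set.univ →
      {p : V × V | p.1 ∈ A ∧ p.2 ∉ A ∧ H.Adj p.1 p.2}.ncard = 3 →
      {x | x ∈ A ∧ M x ∉ A}.ncard = 1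

/-- T10: a 2-regular graph is a disjoint union of cycles -/
def Stmt_T10 : Prop := ∀ (W : Type u) [Fintype W] (F : SimpleGraph W),
  (∀ w, (F.neighborSet w).ncard = 2) →
  ∃ (C : Type u) (_ : Fintype C) (L : C → ℕ) (φ : (Σ c : C, ZMod (L c)) ≃ W),
    (∀ c, 3 ≤ L c) ∧ ∀ (c : C) (i : ZMod (L c)), F.Adj (φ ⟨c, i⟩) (φ ⟨c, i + 1⟩)

/-- instances with at least two cycles -/
def Stmt_I2 : Prop := ∀ (C : Type u) [Fintype C] [Nontrivial C] (I : Inst C), I.Conn4 →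
  I.Colorable

/-- side conditions for instances with exactly one cycle -/
structure Inst.OneOK {C : Type u} (I : Inst C) (c : C) : Prop where
  all : ∀ d, d = c
  neg1 : ∀ p q, I.sgn p = false → I.sgn q = false → q = p ∨ q = I.mate p
  negx : (∃ p, I.mate p = p) → ∀ p, I.sgn p = true
  /-- every chord is crossed by another chord -/
  cross : ∀ i j : ZMod (I.L c), I.mate ⟨c, i⟩ = ⟨c, j⟩ → i ≠ j →
    ∃ k l : ZMod (I.L c), I.mate ⟨c, k⟩ = ⟨c, l⟩ ∧ 0 < (k - i).val ∧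
      (k - i).val < (j - i).val ∧ (j - i).val < (l - i).val

def Stmt_I1 : Prop := ∀ (C : Type u) [Fintype C] (I : Inst C) (c : C), I.OneOK c → I.Colorable

/-- T11: `D0` and `Flag` modes (no inserted vertex) -/
def Stmt_T11a : Prop := Stmt_T9.{u} → Stmt_T10.{u} → Stmt_I2.{u} → Stmt_I1.{u} →
  ∀ (V : Type u) [Fintype V] (H : SimpleGraph V), Cubic H → EC3 H →
  ∀ u v, H.Adj u v →
  (∃ a t : V → V → Col, GStates H a t ∧ ∀ x y, H.Adj x y → GEdge H a t x y) ∧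
  (∃ a t : V → V → Col, GStates H a t ∧
    (∀ x y, H.Adj x y → s(x, y) ≠ s(u, v) → GEdge H a t x y) ∧ GFlag H a t u v)

/-- T11: `X` mode (one inserted vertex on the edge `uv`, which is not in the matching) -/
def Stmt_T11b : Prop := Stmt_T9.{u} → Stmt_T10.{u} → Stmt_I2.{u} → Stmt_I1.{u} →
  ∀ (V : Type u) [Fintype V] (H : SimpleGraph V), Cubic H → EC3 H →
  ∀ u v, H.Adj u v →
  (∃ a t : V → V → Col, GStates H a t ∧
    (∀ x y, H.Adj x y → s(x, y) ≠ s(u, v) → GEdge H a t x y) ∧ GX H a t u v)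

/-! ### Part D: trees and orientations -/

/-- `T` meets every cut -/
def ConnE {V E : Type u} (s t : E → V) (T : Set E) : Prop := ∀ U : Set V, U.Nonempty →
  U ≠ Set.univ → ∃ e ∈ T, (s e ∈ U ∧ t e ∉ U) ∨ (s e ∉ U ∧ t e ∈ U)

/-- T12: two disjoint spanning connected edge sets (Nash-Williams, Tutte, for k = 2) -/
def Stmt_T12 : Prop := ∀ (V E : Type u) [Fintype V] [Fintype E] [Nonempty V] (s t : E → V),
  (∀ f : V → V, 2 * ((Set.range f).ncard - 1) ≤ {e | f (s e) ≠ f (t e)}.ncard) →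
  ∃ T1 T2 : Set E, Disjoint T1 T2 ∧ ConnE s t T1 ∧ ConnE s t T2

section trees
variable {C : Type u}

/-- `par` is a spanning tree of the quotient multigraph rooted at `r`; `par c` is the position on
`c` of the edge joining `c` to its parent -/
def Inst.RTree (I : Inst C) (r : C) (par : C → I.Pos) : Prop :=
  (∀ c, c ≠ r → (par c).1 = c) ∧
    ∃ rank : C → ℕ, ∀ c, c ≠ r → rank (I.mate (par c)).1 < rank c

/-- the positions used by the tree -/
def Inst.tset (I : Inst C) (r : C) (par : C → I.Pos) : Set I.Pos :=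
  {p | ∃ c, c ≠ r ∧ (p = par c ∨ p = I.mate (par c))}

def adjL {L : ℕ} (i j : ZMod L) : Prop := j = i + 1 ∨ j = i - 1

/-- adjacency of positions -/
def Inst.adjP (I : Inst C) (p q : I.Pos) : Prop := q = I.nx p ∨ q = I.pv p

/-- number of chords of the cycle `c` -/
noncomputable def Inst.nl (I : Inst C) (c : C) : ℕ :=
  {i : ZMod (I.L c) | ∃ j, I.mate ⟨c, i⟩ = ⟨c, j⟩ ∧ i ≠ j}.ncard / 2

end trees

/-- T13a (from T12) -/
def Stmt_T13a : Prop := ∀ (C : Type u) [Fintype C] [Nontrivial C] (I : Inst C), I.Conn4 →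
  ∀ (r : C) (g1 g2 : I.Pos), g1.1 = r → g2.1 = r → I.NL g1 → I.NL g2 →
  ∃ par1 par2 : C → I.Pos, I.RTree r par1 ∧ I.RTree r par2 ∧
    Disjoint (I.tset r par1) (I.tset r par2) ∧
    (∀ p ∈ I.tset r par1 ∪ I.tset r par2, p ≠ g1 ∧ p ≠ g2 ∧ p ≠ I.mate g1 ∧ p ≠ I.mate g2)

/-- T13b (exchange) -/
def Stmt_T13b : Prop := ∀ (C : Type u) [Fintype C] (I : Inst C) (r : C)
  (par1 par2 : C → I.Pos), I.RTree r par1 → I.RTree r par2 →
  Disjoint (I.tset r par1) (I.tset r par2) →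
  ∀ g : I.Pos, I.NL g → g ∉ I.tset r par1 ∪ I.tset r par2 →
  ∃ (par1' par2' : C → I.Pos) (g' : I.Pos), I.RTree r par1' ∧ I.RTree r par2' ∧
    Disjoint (I.tset r par1') (I.tset r par2') ∧
    I.tset r par1' ∪ I.tset r par2' ⊆ I.tset r par1 ∪ I.tset r par2 ∪ {g, I.mate g} ∧
    g' ∈ I.tset r par1 ∪ I.tset r par2 ∪ {g, I.mate g} ∧
    g' ∉ I.tset r par1' ∪ I.tset r par2' ∧ I.NL g' ∧ g'.1 ≠ r ∧ ¬ I.adjP g' (par1' g'.1)

/-- T13c (parity): the edges of a spanning tree can be re-oriented so that all vertices except the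
root have prescribed parity of the number of heads -/
def Stmt_T13c : Prop := ∀ (C : Type u) [Fintype C] (I : Inst C) (r : C)
  (par : C → I.Pos), I.RTree r par → ∀ (hd0 : I.Pos → Prop) (R : C → ℕ),
  (∀ p, I.NL p → (hd0 (I.mate p) ↔ ¬ hd0 p)) →
  ∃ hd : I.Pos → Prop, (∀ p, I.NL p → (hd (I.mate p) ↔ ¬ hd p)) ∧
    (∀ p, p ∉ I.tset r par → (hd p ↔ hd0 p)) ∧
    ∀ c, c ≠ r → Even ({i : ZMod (I.L c) | I.NL ⟨c, i⟩ ∧ hd ⟨c, i⟩}.ncard + R c)

/-- admissible local situation at a cycle with tie `a`, other non-chord heads `J0`, and `nl`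
chords -/
def Adm (L nl : ℕ) (J0 : Set (ZMod L)) (a : ZMod L) : Prop :=
  (Odd (J0.ncard + nl) ∧
    (3 ≤ J0.ncard + nl ∨ L % 3 ≠ 2 ∨ 1 ≤ nl ∨ ∃ g ∈ J0, ¬ adjL g a)) ∨
  (Even (J0.ncard + nl) ∧
    ((nl = 0 ∧ (L % 3 ≠ 1 ∨ ∃ g ∈ J0, ¬ adjL g a)) ∨ nl = 1 ∨ 4 ≤ J0.ncard + nl))

/-- the output of the orientation theorem -/
structure Inst.Oriented {C : Type u} (I : Inst C) (r : C) (tie : C → I.Pos) (rank : C → ℕ)
    (hd : I.Pos → Prop) : Prop where
  tie1 : ∀ c, c ≠ r → (tie c).1 = c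
  tieNL : ∀ c, c ≠ r → I.NL (tie c)
  tieH : ∀ c, c ≠ r → hd (tie c)
  rank : ∀ c, c ≠ r → rank (I.mate (tie c)).1 < rank c
  flip : ∀ p, I.NL p → (hd (I.mate p) ↔ ¬ hd p)
  unm : ∀ p, I.mate p = p → p.1 = r
  adm : ∀ c, c ≠ r → ∀ a : ZMod (I.L c), tie c = ⟨c, a⟩ →
    Adm (I.L c) (I.nl c) {i | I.NL ⟨c, i⟩ ∧ hd ⟨c, i⟩ ∧ i ≠ a} a
  root : Even ({i : ZMod (I.L r) | (I.NL ⟨r, i⟩ ∨ I.mate ⟨r, i⟩ = ⟨r, i⟩) ∧ hd ⟨r, i⟩}.ncard
    + I.nl r)
  rootg : ∃ g1 g2 : ZMod (I.L r), I.NL ⟨r, g1⟩ ∧ I.NL ⟨r, g2⟩ ∧ hd ⟨r, g1⟩ ∧ hd ⟨r, g2⟩ ∧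
    g1 ≠ g2 ∧ ¬ adjL g1 g2

/-- T13 -/
def Stmt_T13 : Prop := ∀ (C : Type u) [Fintype C] [Nontrivial C] (I : Inst C), I.Conn4 →
  ∃ (r : C) (tie : C → I.Pos) (rank : C → ℕ) (hd : I.Pos → Prop), I.Oriented r tie rank hd

/-! ### Part E: types -/

/-- the relation saying that the matching edge at `i` is a chord with other end `j` on a cycle -/
structure LoopRel (L : ℕ) (lm : ZMod L → ZMod L → Prop) (sg : ZMod L → Bool) : Prop where
  symm : ∀ i j, lm i j → lm j i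
  func : ∀ i j k, lm i j → lm i k → j = k
  irr : ∀ i j, lm i j → i ≠ j
  noadj : ∀ i, ¬ lm i (i + 1)
  sg : ∀ i j, lm i j → sg i = sg j

/-- second stage of the local game: `ty` are the types announced at the tails, `mc` the classes of
the matching edges -/
def LFin (L : ℕ) (lm : ZMod L → ZMod L → Prop) (sg : ZMod L → Bool) (J : Set (ZMod L))
    (ty mc : ZMod L → Bool) : Prop :=
  ∃ (τ : ZMod L → Bool) (kind : ZMod L → Kind),
    (∀ i, i ∉ J → kind i = Kind.P ∧ τ (i - 1) = τ i ∧ τ i = ty i) ∧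
    (∀ i, i ∈ J → (kind i = Kind.H ∧ τ (i - 1) ≠ τ i) ∨
      (kind i = Kind.S ∧ τ (i - 1) = τ i ∧ τ i = mc i)) ∧
    (∀ i j, kind i = Kind.S → kind j = Kind.S → i = j) ∧
    GoodL L τ kind mc (fun i => sg i = false ∨ ¬ ∃ j, lm i j)

/-- compatibility of the classes with the announced types -/
def LComp (L : ℕ) (lm : ZMod L → ZMod L → Prop) (sg : ZMod L → Bool) (J : Set (ZMod L))
    (ty mc : ZMod L → Bool) : Prop :=
  (∀ i, i ∉ J → mc i = !(ty i)) ∧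
  (∀ i j, i ∈ J → lm i j → mc i = (if sg i then !(ty j) else ty j))

/-- a tied cycle wins the local game -/
def LWin (L : ℕ) (lm : ZMod L → ZMod L → Prop) (sg : ZMod L → Bool) (J : Set (ZMod L))
    (a : ZMod L) : Prop :=
  ∀ Ma : Bool, ∃ ty : ZMod L → Bool, ∀ mc : ZMod L → Bool, mc a = Ma →
    LComp L lm sg J ty mc → LFin L lm sg J ty mc

/-- the root wins the local game -/
def LWinR (L : ℕ) (lm : ZMod L → ZMod L → Prop) (sg : ZMod L → Bool) (J : Set (ZMod L)) : Prop :=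
  ∃ ty : ZMod L → Bool, ∀ mc : ZMod L → Bool, LComp L lm sg J ty mc → LFin L lm sg J ty mc

/-- T14 -/
def Stmt_T14 : Prop := ∀ (L nl : ℕ) (lm : ZMod L → ZMod L → Prop) (sg : ZMod L → Bool)
  (a : ZMod L) (J0 : Set (ZMod L)), 4 ≤ L → LoopRel L lm sg → (¬ ∃ j, lm a j) → a ∉ J0 →
  (∀ i ∈ J0, ¬ ∃ j, lm i j) → {i | ∃ j, lm i j}.ncard = 2 * nl →
  4 ≤ {i | ¬ ∃ j, lm i j}.ncard → Adm L nl J0 a →
  ∃ J : Set (ZMod L), (∀ i, (¬ ∃ j, lm i j) → (i ∈ J ↔ (i = a ∨ i ∈ J0))) ∧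
    (∀ i j, lm i j → (i ∈ J ↔ j ∉ J)) ∧ LWin L lm sg J a

/-- T14R -/
def Stmt_T14R : Prop := ∀ (L nl : ℕ) (lm : ZMod L → ZMod L → Prop) (sg : ZMod L → Bool)
  (J0 : Set (ZMod L)) (g1 g2 : ZMod L), 4 ≤ L → LoopRel L lm sg →
  (∀ i ∈ J0, ¬ ∃ j, lm i j) → {i | ∃ j, lm i j}.ncard = 2 * nl →
  g1 ∈ J0 → g2 ∈ J0 → g1 ≠ g2 → ¬ adjL g1 g2 → Even (J0.ncard + nl) →
  ∃ J : Set (ZMod L), (∀ i, (¬ ∃ j, lm i j) → (i ∈ J ↔ i ∈ J0)) ∧
    (∀ i j, lm i j → (i ∈ J ↔ j ∉ J)) ∧ LWinR L lm sg J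

/-- T15: types for instances with at least two cycles (uses T13, T14, T14R) -/
def Stmt_T15 : Prop := Stmt_T13.{u} → Stmt_T14 → Stmt_T14R →
  ∀ (C : Type u) [Fintype C] [Nontrivial C] (I : Inst C), I.Conn4 →
  ∃ (τ : I.Pos → Bool) (kind : I.Pos → Kind) (mc : I.Pos → Bool), I.TD τ kind mc

/-- T16: types for instances with one cycle -/
def Stmt_T16 : Prop := ∀ (C : Type u) [Fintype C] (I : Inst C) (c : C), I.OneOK c →
  ∃ (τ : I.Pos → Bool) (kind : I.Pos → Kind) (mc : I.Pos → Bool), I.TD τ kind mc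

/-! ### Part F: colours -/

/-- T17a: at least four heads -/
def Stmt_T17a : Prop := ∀ (L : ℕ) (τ : ZMod L → Bool) (kind : ZMod L → Kind) (mc : ZMod L → Bool)
  (X : Bool), 3 ≤ L → ConsL L τ kind mc → 4 ≤ {i | kind i = Kind.H}.ncard → Indep L τ kind mc X

/-- T17b: no heads, one special -/
def Stmt_T17b : Prop := ∀ (L : ℕ) (τ : ZMod L → Bool) (kind : ZMod L → Kind) (mc : ZMod L → Bool)
  (X : Bool), 3 ≤ L → ConsL L τ kind mc → {i | kind i = Kind.H}.ncard = 0 →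
  (∃ i, kind i = Kind.S) → L % 3 ≠ 1 → Indep L τ kind mc X

/-- T17c: two heads, independent -/
def Stmt_T17c : Prop := ∀ (L : ℕ) (τ : ZMod L → Bool) (kind : ZMod L → Kind) (mc : ZMod L → Bool)
  (X : Bool), 3 ≤ L → ConsL L τ kind mc → {i | kind i = Kind.H}.ncard = 2 →
  ((∃ i, kind i = Kind.S ∧ τ i = X) ∨
    ({i | τ i = X}.ncard + {i | kind i = Kind.H ∧ mc i = X}.ncard) % 3 ≠ 2) →
  Indep L τ kind mc X

/-- T17d: two heads, dependent -/
def Stmt_T17d : Prop := ∀ (L : ℕ) (τ : ZMod L → Bool) (kind : ZMod L → Kind) (mc : ZMod L → Bool)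
  (X : Bool) (i0 : ZMod L), 3 ≤ L → ConsL L τ kind mc → {i | kind i = Kind.H}.ncard = 2 →
  (¬ ∃ i, kind i = Kind.S ∧ τ i = X) →
  ({i | τ i = X}.ncard + {i | kind i = Kind.H ∧ mc i = X}.ncard) % 3 = 2 →
  kind i0 = Kind.P → τ i0 = (!X) → Dep L τ kind mc X i0

/-- T18: the functional equations between dependent cycles -/
def Stmt_T18 : Prop := ∀ (S : Type u) [Fintype S] (f : S → Option S) (ε x0 : S → ZMod 3),
  (∀ c, ε c = 1 ∨ ε c = -1) → (∀ c, f c ≠ some c) →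
  (∀ c c' d, f c = some d → f c' = some d → ε c = ε c' → c = c') →
  ∃ x δ : S → ZMod 3, (∀ c, δ c = 1 ∨ δ c = -1) ∧
    ∀ c, (f c = none → x c = x0 c) ∧ ∀ d, f c = some d → x c = x d + ε c * δ d

/-- T19: types data give a colouring -/
def Stmt_T19 : Prop := Stmt_T17a → Stmt_T17b → Stmt_T17c → Stmt_T17d → Stmt_T18.{u} →
  ∀ (C : Type u) [Fintype C] (I : Inst C) (τ : I.Pos → Bool) (kind : I.Pos → Kind)
    (mc : I.Pos → Bool), I.TD τ kind mc → I.Colorable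

/-! ### The final theorem -/

def Stmt_Final : Prop := ∀ (V : Type u) [Fintype V] [Nonempty V] (G : SimpleGraph V), Cubic G →
  strongChromaticIndex (truncation G) = 6

theorem final_of
    (h1 : Stmt_T1.{u}) (h6 : Stmt_T6.{u}) (h7 : Stmt_T7.{u}) (h8 : Stmt_T8.{u})
    (h8b : Stmt_T8b.{u}) (h9 : Stmt_T9.{u}) (h10 : Stmt_T10.{u}) (h11a : Stmt_T11a.{u})
    (h11b : Stmt_T11b.{u}) (h13 : Stmt_T13.{u}) (h14 : Stmt_T14) (h14R : Stmt_T14R)
    (h15 : Stmt_T15.{u}) (h16 : Stmt_T16.{u}) (h17a : Stmt_T17a) (h17b : Stmt_T17b)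
    (h17c : Stmt_T17c) (h17d : Stmt_T17d) (h18 : Stmt_T18.{u}) (h19 : Stmt_T19.{u}) :
    Stmt_Final.{u} := by
  have hI2 : Stmt_I2.{u} := by
    intro C _ _ I hI
    obtain ⟨τ, kind, mc, h⟩ := h15 h13 h14 h14R C I hI
    exact h19 h17a h17b h17c h17d h18 C I τ kind mc h
  have hI1 : Stmt_I1.{u} := by
    intro C _ I c hI
    obtain ⟨τ, kind, mc, h⟩ := h16 C I c hI
    exact h19 h17a h17b h17c h17d h18 C I τ kind mc h
  have hB : Stmt_BaseG.{u} := by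
    intro V _ H hc he u v huv
    have ha := h11a h9 h10 hI2 hI1 V H hc he u v huv
    exact ⟨ha.1, ha.2, h11b h9 h10 hI2 hI1 V H hc he u v huv⟩
  intro V _ _ G hG
  exact h1 V G hG (h8b (h7 (h6 (h8 hB))) V G hG)

end TruncSC
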