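import Pool.Agent.TruncSC.Specs
import Pool.Agent.Trunc.Petersen

/-!
# T9a: every edge of a 3-edge-connected cubic graph is in a perfect matching (via Tutte)
-/

set_option autoImplicit false

namespace TruncSC

open Pool.Agent.Trunc Finset SimpleGraph

universe u

theorem T9a_aux {V : Type u} [Fintype V] [DecidableEq V] (G : SimpleGraph V)
    [DecidableRel G.Adj] (h3 : ∀ v, G.degree v = 3)
    (hcut : ∀ C : Finset V, C.Nonempty → C ≠ univ → 3 ≤ (outDarts G C).card)
    (u v : V) (huv : G.Adj u v) :
    ∃ m : V → V, ∀ x, x ∉ ({u, v} : Finset V) → m x ∉ ({u, v} : Finset V) ∧ G.Adj x (m x) ∧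
      m (m x) = x := by
  classical
  have hne : u ≠ v := G.ne_of_adj huv
  set U : Finset V := {u, v} with hUdef
  have hUcard : U.card = 2 := by rw [hUdef, Finset.card_pair hne]
  have huU : u ∈ U := by simp [hUdef]
  have hvU : v ∈ U := by simp [hUdef]
  have hVeven : Even (Fintype.card V) := by
    have h1 := sum_degree_eq G (univ : Finset V)
    have h2 : outDarts G (univ : Finset V) = ∅ := by
      ext p
      simp [mem_outDarts]
    rw [h2, Finset.sum_congr rfl (fun x _ => h3 x), Finset.sum_const, smul_eq_mul,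
      Finset.card_empty, zero_add, Finset.card_univ] at h1
    have h4 := even_inDarts G (univ : Finset V)
    rw [← h1] at h4
    rcases Nat.even_mul.1 h4 with h | h
    · exact h
    · exact absurd h (by decide)
  have key : ∃ M : (G.induce {v | v ∉ U}).Subgraph, M.IsPerfectMatching := by
    rw [SimpleGraph.tutte]
    intro T hT
    unfold SimpleGraph.IsTutteViolator at hT
    set H := G.induce {v | v ∉ U} with hH
    set K := ((⊤ : H.Subgraph).deleteVerts T).coe with hK
    -- the vertex set of a component
    let S : K.ConnectedComponent → Finset V := fun c =>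
      univ.filter (fun v => ∃ (h : v ∈ {v | v ∉ U})
        (h' : (⟨v, h⟩ : {v | v ∉ U}) ∈ ((⊤ : H.Subgraph).deleteVerts T).verts),
          K.connectedComponentMk ⟨⟨v, h⟩, h'⟩ = c)
    have hS : ∀ c v, v ∈ S c ↔ ∃ (h : v ∈ {v | v ∉ U})
        (h' : (⟨v, h⟩ : {v | v ∉ U}) ∈ ((⊤ : H.Subgraph).deleteVerts T).verts),
          K.connectedComponentMk ⟨⟨v, h⟩, h'⟩ = c := by
      intro c v
      simp only [S, Finset.mem_filter, Finset.mem_univ, true_and]
    have hScard : ∀ c : K.ConnectedComponent, (S c).card = c.supp.ncard := by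
      intro c
      have : (S c : Set V) = (fun x : ↥((⊤ : H.Subgraph).deleteVerts T).verts => x.1.1) '' c.supp := by
        ext v
        rw [Finset.mem_coe, hS]
        constructor
        · rintro ⟨h, h', hc⟩
          exact ⟨⟨⟨v, h⟩, h'⟩, hc, rfl⟩
        · rintro ⟨⟨⟨w, h⟩, h'⟩, hc, rfl⟩
          exact ⟨h, h', hc⟩
      rw [← Set.ncard_coe_finset, this, Set.ncard_image_of_injective]
      intro x y hxy
      exact Subtype.ext (Subtype.ext hxy)
    -- target set of the outgoing darts
    let T' : Finset V := univ.filter (fun v => ∃ h : v ∈ {v | v ∉ U}, (⟨v, h⟩ : {v | v ∉ U}) ∈ T)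
    have hT' : ∀ v, v ∈ T' ↔ ∃ h : v ∈ {v | v ∉ U}, (⟨v, h⟩ : {v | v ∉ U}) ∈ T := by
      intro v
      simp only [T', Finset.mem_filter, Finset.mem_univ, true_and]
    have hT'card : T'.card = T.ncard := by
      have : (T' : Set V) = Subtype.val '' T := by
        ext v
        rw [Finset.mem_coe, hT']
        constructor
        · rintro ⟨h, h'⟩
          exact ⟨⟨v, h⟩, h', rfl⟩
        · rintro ⟨⟨w, h⟩, h', rfl⟩
          exact ⟨h, h'⟩
      rw [← Set.ncard_coe_finset, this, Set.ncard_image_of_injective _ Subtype.val_injective]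
    have hout : ∀ c, ∀ p ∈ outDarts G (S c), p.2 ∈ T' ∪ U := by
      rintro c ⟨a, b⟩ hp
      rw [mem_outDarts] at hp
      obtain ⟨ha, hb', hab⟩ := hp
      simp only at ha hb' hab
      by_contra hcon
      rw [Finset.mem_union, not_or] at hcon
      obtain ⟨hbT, hbU⟩ := hcon
      apply hb'
      rw [hS] at ha ⊢
      obtain ⟨h, h', hc⟩ := ha
      have hb1 : b ∈ {v | v ∉ U} := hbU
      have hb2 : (⟨b, hb1⟩ : {v | v ∉ U}) ∈ ((⊤ : H.Subgraph).deleteVerts T).verts := by
        rw [SimpleGraph.Subgraph.deleteVerts_verts]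
        refine ⟨trivial, ?_⟩
        intro hcc
        exact hbT ((hT' b).2 ⟨hb1, hcc⟩)
      refine ⟨hb1, hb2, ?_⟩
      rw [← hc]
      rw [SimpleGraph.ConnectedComponent.eq]
      refine SimpleGraph.Adj.reachable ?_
      rw [hK, SimpleGraph.Subgraph.coe_adj, SimpleGraph.Subgraph.deleteVerts_adj]
      refine ⟨trivial, ?_, trivial, ?_, ?_⟩
      · rw [SimpleGraph.Subgraph.deleteVerts_verts] at hb2
        exact hb2.2
      · rw [SimpleGraph.Subgraph.deleteVerts_verts] at h'
        exact h'.2
      · rw [SimpleGraph.Subgraph.top_adj, hH, SimpleGraph.comap_adj]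
        exact hab.symm
    -- count
    have hfin : (K.oddComponents).Finite := Set.toFinite _
    let OC : Finset K.ConnectedComponent := hfin.toFinset
    have hOC : ∀ c, c ∈ OC ↔ Odd c.supp.ncard := by
      intro c
      simp [OC]
    have hOCcard : OC.card = K.oddComponents.ncard := by
      rw [Set.ncard_eq_toFinset_card _ hfin]
    have h1 : 3 * OC.card ≤ ∑ c ∈ OC, (outDarts G (S c)).card := by
      rw [mul_comm, ← smul_eq_mul, ← Finset.sum_const]
      refine Finset.sum_le_sum ?_
      intro c hc
      refine hcut _ ?_ ?_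
      · rw [← Finset.card_pos, hScard]
        exact ((hOC c).1 hc).pos
      · intro hcc
        have : u ∈ S c := by rw [hcc]; simp
        rw [hS] at this
        obtain ⟨h, -⟩ := this
        exact h huU
    have hdisj : ∀ c ∈ OC, ∀ c' ∈ OC, c ≠ c' →
        Disjoint (outDarts G (S c)) (outDarts G (S c')) := by
      intro c _ c' _ hne
      rw [Finset.disjoint_left]
      intro p hp hp'
      rw [mem_outDarts] at hp hp'
      have hp1 := hp.1
      have hp2 := hp'.1
      rw [hS] at hp1 hp2
      obtain ⟨h, h', hc⟩ := hp1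
      obtain ⟨k, k', hc'⟩ := hp2
      exact hne (hc.symm.trans hc')
    have h2 : ∑ c ∈ OC, (outDarts G (S c)).card = (OC.biUnion (fun c => outDarts G (S c))).card :=
      (Finset.card_biUnion hdisj).symm
    have hSnot : ∀ c x, x ∈ S c → x ∉ T' ∪ U := by
      intro c x hx hx'
      rw [hS] at hx
      obtain ⟨h, h', hc⟩ := hx
      rw [Finset.mem_union] at hx'
      rcases hx' with hx' | hx'
      · rw [hT'] at hx'
        obtain ⟨k, k'⟩ := hx'
        rw [SimpleGraph.Subgraph.deleteVerts_verts] at h'
        exact h'.2 k'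
      · exact h hx'
    have h4 : (OC.biUnion (fun c => outDarts G (S c))).card ≤ (outDarts G (T' ∪ U)).card := by
      refine Finset.card_le_card_of_injOn (fun p => (p.2, p.1)) ?_ ?_
      · intro p hp
        rw [Finset.mem_coe, Finset.mem_biUnion] at hp
        obtain ⟨c, -, hp⟩ := hp
        have h5 := hout c p hp
        rw [mem_outDarts] at hp
        rw [Finset.mem_coe, mem_outDarts]
        exact ⟨h5, hSnot c _ hp.1, hp.2.2.symm⟩
      · intro p _ q _ hpq
        simp only [Prod.mk.injEq] at hpq
        exact Prod.ext hpq.2 hpq.1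
    have hd : Disjoint T' U := by
      rw [Finset.disjoint_left]
      intro v hv hv'
      rw [hT'] at hv
      obtain ⟨h, -⟩ := hv
      exact h hv'
    have h5 : (outDarts G (T' ∪ U)).card ≤ 3 * T'.card + 4 := by
      have h6 := sum_degree_eq G (T' ∪ U)
      rw [Finset.sum_congr rfl (fun x _ => h3 x), Finset.sum_const, smul_eq_mul,
        Finset.card_union_of_disjoint hd, hUcard] at h6
      have h7 : 2 ≤ (inDarts G (T' ∪ U)).card := by
        have h8 : ({(u, v), (v, u)} : Finset (V × V)) ⊆ inDarts G (T' ∪ U) := by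
          intro p hp
          rw [Finset.mem_insert, Finset.mem_singleton] at hp
          rw [mem_inDarts]
          rcases hp with rfl | rfl
          · exact ⟨Finset.mem_union_right _ huU, Finset.mem_union_right _ hvU, huv⟩
          · exact ⟨Finset.mem_union_right _ hvU, Finset.mem_union_right _ huU, huv.symm⟩
        have h9 := Finset.card_le_card h8
        rwa [Finset.card_pair (by
          intro h
          exact hne (congrArg Prod.fst h))] at h9
      omega
    -- parity
    have hpar := K.odd_ncard_oddComponents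
    have hKcard : Nat.card ↥((⊤ : H.Subgraph).deleteVerts T).verts + T'.card + 2
        = Fintype.card V := by
      have e1 : Nat.card ↥((⊤ : H.Subgraph).deleteVerts T).verts
          = ((⊤ : H.Subgraph).deleteVerts T).verts.ncard := rfl
      have e2 : ((⊤ : H.Subgraph).deleteVerts T).verts.ncard
          = (Subtype.val '' ((⊤ : H.Subgraph).deleteVerts T).verts : Set V).ncard :=
        (Set.ncard_image_of_injective _ Subtype.val_injective).symm
      have e3 : (Subtype.val '' ((⊤ : H.Subgraph).deleteVerts T).verts : Set V)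
          = ((univ \ (T' ∪ U) : Finset V) : Set V) := by
        ext x
        rw [Finset.mem_coe, Finset.mem_sdiff, Finset.mem_union, hT']
        constructor
        · rintro ⟨⟨y, hy⟩, hy', rfl⟩
          rw [SimpleGraph.Subgraph.deleteVerts_verts] at hy'
          refine ⟨Finset.mem_univ _, ?_⟩
          rintro (⟨h, h'⟩ | h)
          · exact hy'.2 h'
          · exact hy h
        · rintro ⟨-, h⟩
          rw [not_or] at h
          refine ⟨⟨x, h.2⟩, ?_, rfl⟩
          rw [SimpleGraph.Subgraph.deleteVerts_verts]
          exact ⟨trivial, fun hc => h.1 ⟨h.2, hc⟩⟩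
      rw [e1, e2, e3, Set.ncard_coe_finset]
      have e4 := Finset.card_sdiff_add_card_eq_card (Finset.subset_univ (T' ∪ U))
      rw [Finset.card_union_of_disjoint hd, hUcard, Finset.card_univ] at e4
      omega
    rw [← hOCcard] at hpar
    rw [← hOCcard, ← hT'card] at hT
    obtain ⟨k, hk⟩ := hVeven
    have hpar' : OC.card % 2 = Nat.card ↥((⊤ : H.Subgraph).deleteVerts T).verts % 2 := by
      by_cases ho : Odd OC.card
      · have := hpar.1 ho
        rw [Nat.odd_iff] at ho this
        omega
      · have h9 : ¬ Odd (Nat.card ↥((⊤ : H.Subgraph).deleteVerts T).verts) :=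
          fun h => ho (hpar.2 h)
        rw [Nat.not_odd_iff] at ho h9
        omega
    omega
  obtain ⟨M, hM⟩ := key
  rw [SimpleGraph.Subgraph.isPerfectMatching_iff] at hM
  choose f hf hf' using hM
  refine ⟨fun v => if h : v ∉ U then (f ⟨v, h⟩).1 else v, ?_⟩
  intro v hv
  have hadj := hf ⟨v, hv⟩
  have hff : f (f ⟨v, hv⟩) = ⟨v, hv⟩ := (hf' (f ⟨v, hv⟩) ⟨v, hv⟩ hadj.symm).symm
  have hnot : (f ⟨v, hv⟩).1 ∉ U := (f ⟨v, hv⟩).2
  refine ⟨?_, ?_, ?_⟩
  · simp only [hv, not_false_eq_true, dite_true]
    exact hnot
  · simp only [hv, not_false_eq_true, dite_true]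
    have := M.adj_sub hadj
    rw [SimpleGraph.comap_adj] at this
    exact this
  · simp only [hv, not_false_eq_true, dite_true]
    rw [dif_pos hnot]
    exact congrArg Subtype.val hff

theorem outDarts_card_eq {V : Type u} [Fintype V] (H : SimpleGraph V) (A : Set V)
    (C : Finset V) (h : ∀ x, x ∈ C ↔ x ∈ A) :
    {p : V × V | p.1 ∈ A ∧ p.2 ∉ A ∧ H.Adj p.1 p.2}.ncard = (outDarts H C).card := by
  rw [← Set.ncard_coe_finset]
  congr 1
  ext p
  rw [Finset.mem_coe, mem_outDarts, h, h]
  rfl

theorem T9a : Stmt_T9a.{u} := by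
  classical
  intro V _ H hc he u v huv
  have h3 : ∀ x, H.degree x = 3 := by
    intro x
    rw [← H.card_neighborFinset_eq_degree, ← hc x, ← Set.ncard_coe_finset]
    congr 1
    ext y
    simp
  have hcut : ∀ C : Finset V, C.Nonempty → C ≠ univ → 3 ≤ (outDarts H C).card := by
    intro C h1 h2
    rw [← outDarts_card_eq H (C : Set V) C (fun x => by simp)]
    refine he (C : Set V) ?_ ?_
    · exact_mod_cast h1
    · intro h
      exact h2 (Finset.coe_eq_univ.1 h)
  obtain ⟨m, hm⟩ := T9a_aux H h3 hcut u v huv
  have hne : u ≠ v := H.ne_of_adj huv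
  refine ⟨fun x => if x = u then v else if x = v then u else m x, ?_, ?_, ?_⟩
  · intro x
    by_cases hx : x = u
    · subst hx
      simpa using huv
    · by_cases hx' : x = v
      · subst hx'
        simp only [hx, if_false, if_true]
        exact huv.symm
      · simp only [hx, hx', if_false]
        exact (hm x (by simp [hx, hx'])).2.1
  · intro x
    by_cases hx : x = u
    · subst hx
      simp [hne.symm]
    · by_cases hx' : x = v
      · subst hx'
        simp [hx]
      · have h1 := hm x (by simp [hx, hx'])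
        have h2 := h1.1
        simp only [Finset.mem_insert, Finset.mem_singleton, not_or] at h2
        simp only [hx, hx', if_false, h2.1, h2.2]
        exact h1.2.2
  · simp

end TruncSC
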